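import Pool.Agent.Helper85.T7C.Base
import Pool.Agent.Helper85.T5C.Cls

/-!
# Levels `7·p^n`, `W_7 = +1`: tools for the base levels, decidable checks
-/

set_option autoImplicit false

namespace Pool.Agent.Helper85.T7C

open Pool.Agent.Helper14.CV (Homog EqC act Tl StFar StFex)
open Pool.Agent.Helper28.T7

instance decHTy (a b c d : ℤ) : Decidable (HTy a b c d) := by
  unfold HTy
  infer_instance

/-- The vectors are proportional, up to the reflection. -/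
def pr (v c : ℤ × ℤ) : Prop := (v.1 ≠ 0 ∨ v.2 ≠ 0) ∧ (c.1 ≠ 0 ∨ c.2 ≠ 0) ∧
  (v.1 * c.2 = v.2 * c.1 ∨ v.1 * c.2 = -(v.2 * c.1))

instance decPr (v c : ℤ × ℤ) : Decidable (pr v c) := by
  unfold pr
  infer_instance

theorem pr_eq {e1 e2 e3 : ℤ} {F : ℤ → ℤ → ℂ} (h : Inv e1 e2 e3 F) {v1 v2 c1 c2 : ℤ}
    (hp : pr (v1, v2) (c1, c2)) : F v1 v2 = F c1 c2 := by
  obtain ⟨hv, hc, hp⟩ := hp
  simp only at hv hc hp
  by_cases h0 : c2 = 0
  · subst h0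
    have hc1 : c1 ≠ 0 := by rcases hc with hc | hc; exacts [hc, absurd rfl hc]
    have hv2 : v2 = 0 := by
      have e : v2 * c1 = 0 := by
        rcases hp with hp | hp
        · rw [← hp, mul_zero]
        · rw [mul_zero] at hp; exact neg_eq_zero.1 hp.symm
      exact (mul_eq_zero.1 e).resolve_right hc1
    subst hv2
    have hv1 : v1 ≠ 0 := by rcases hv with hv | hv; exacts [hv, absurd rfl hv]
    have a1 := h.hom v1 1 0 hv1 (Or.inl one_ne_zero)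
    have a2 := h.hom c1 1 0 hc1 (Or.inl one_ne_zero)
    rw [mul_one, mul_zero] at a1 a2
    rw [a1, a2]
  · have hv2 : v2 ≠ 0 := by
      rintro rfl
      have e : v1 * c2 = 0 := by rcases hp with hp | hp <;> simpa using hp
      have : v1 = 0 := (mul_eq_zero.1 e).resolve_right h0
      rcases hv with hv | hv
      · exact hv this
      · exact hv rfl
    have a1 := h.hom c2 v1 v2 h0 hv
    rcases hp with hp | hp
    · have a2 := h.hom v2 c1 c2 hv2 hc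
      rw [← a1, ← a2, mul_comm c2 v1, hp, mul_comm c2 v2]
    · have a2 := h.hom v2 (-c1) c2 hv2 (Or.inr h0)
      have a3 := h.st c1 c2 hc
      rw [← a1, ← a3, ← a2, mul_comm c2 v1, hp, mul_comm c2 v2, mul_neg]

/-- The matrix `t` has type `HTy` and the vectors `t(1, 0)`, `t(0, 1)` are proportional to vectors of the list. -/
def okA (K : List (ℤ × ℤ)) (t : ℤ × ℤ × ℤ × ℤ) : Prop := HTy t.1 t.2.1 t.2.2.1 t.2.2.2 ∧
  (∃ c ∈ K, pr (t.1, t.2.2.1) c) ∧ (∃ c ∈ K, pr (t.2.1, t.2.2.2) c)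

instance decOkA (K : List (ℤ × ℤ)) (t : ℤ × ℤ × ℤ × ℤ) : Decidable (okA K t) := by
  unfold okA
  infer_instance

/-- The matrix `t` has type `HTy` and the vectors `t(0, 1)`, `t(-1, 2)` are proportional to vectors of the list. -/
def okB (K : List (ℤ × ℤ)) (t : ℤ × ℤ × ℤ × ℤ) : Prop := HTy t.1 t.2.1 t.2.2.1 t.2.2.2 ∧
  (∃ c ∈ K, pr (t.2.1, t.2.2.2) c) ∧
    (∃ c ∈ K, pr (2 * t.2.1 - t.1, 2 * t.2.2.2 - t.2.2.1) c)

instance decOkB (K : List (ℤ × ℤ)) (t : ℤ × ℤ × ℤ × ℤ) : Decidable (okB K t) := by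
  unfold okB
  infer_instance

/-- The potential is constant: lists of representatives and of vectors with the same value. -/
theorem fin7' (hfar : StFar) {e1 e2 e3 : ℤ} {F : ℤ → ℤ → ℂ} (h : Inv e1 e2 e3 F) (κ : ℂ)
    (K : List (ℤ × ℤ)) (hK : ∀ c ∈ K, F c.1 c.2 = κ) (LA LB : List (ℤ × ℤ × ℤ × ℤ))
    (hLA : ∀ t ∈ LA, okA K t) (hLB : ∀ t ∈ LB, okB K t)
    (cA : ∀ p q r s : ℤ, p * s - q * r = 1 → ∃ t ∈ LA, e1 ∣ q * t.1 - p * t.2.1 ∧
      e2 ∣ r * t.2.2.2 - s * t.2.2.1)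
    (cB : ∀ p q r s : ℤ, p * s - q * r = 1 → ∃ t ∈ LB, e1 ∣ q * t.1 - p * t.2.1 ∧
      e2 ∣ r * t.2.2.2 - s * t.2.2.1) : EqC F 0 := by
  refine fin7 hfar h κ (fun p q r s hd _ => ?_) (fun p q r s hd _ => ?_)
  · obtain ⟨t, ht, d1, d2⟩ := cA p q r s hd
    obtain ⟨hT, ⟨c, hc, p1⟩, ⟨c', hc', p2⟩⟩ := hLA t ht
    exact ⟨_, _, _, _, hT, d1, d2, (pr_eq h p1).trans (hK c hc), (pr_eq h p2).trans (hK c' hc')⟩
  · obtain ⟨t, ht, d1, d2⟩ := cB p q r s hd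
    obtain ⟨hT, ⟨c, hc, p1⟩, ⟨c', hc', p2⟩⟩ := hLB t ht
    exact ⟨_, _, _, _, hT, d1, d2, (pr_eq h p1).trans (hK c hc), (pr_eq h p2).trans (hK c' hc')⟩

end Pool.Agent.Helper85.T7C
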