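import Pool.Agent.Helper85.T7C.Base2

/-!
# Levels `7·5^n`, `W_7 = +1`: the level `175`
-/

set_option autoImplicit false

namespace Pool.Agent.Helper85.T7C

open Pool.Agent.Helper14.CV (Homog EqC act Tl StFar StFex)
open Pool.Agent.Helper28.T7
open Pool.Agent.Helper83.T7C
open Pool.Agent.Helper85.T5C (cls_of)

/-- Representatives. -/
private def LA : List (ℤ × ℤ × ℤ × ℤ) :=
  [(0, -1, 7, 0), (0, -1, 7, 7), (0, -1, 7, 14), (0, 1, -7, 14), (0, 1, -7, 7), (1, 0, 0, 1),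
    (1, 0, -14, 1), (1, 0, -7, 1), (1, 0, 7, 1), (1, 0, 14, 1), (1, 1, 0, 1), (14, -1, 7, 0),
    (7, 2, 21, 7), (-1, -1, 7, 6), (-7, -2, 28, 7), (1, 2, 0, 1), (7, -1, 7, 0), (-2, 1, -7, 3),
    (2, -1, -7, 4), (7, -1, -42, 7), (1, -2, 0, 1), (-7, -1, 7, 0), (7, 1, 42, 7), (2, 1, 7, 4),
    (-2, -1, 7, 3), (1, -1, 0, 1), (-14, -1, 7, 0), (-7, 2, -28, 7), (-1, 1, -7, 6),
    (7, -2, -21, 7)]

/-- Representatives. -/
private def LB : List (ℤ × ℤ × ℤ × ℤ) :=
  [(0, -1, 7, 0), (0, -1, 7, 7), (-5, -3, 7, 4), (25, 8, 28, 9), (5, 2, 7, 3), (1, 0, 0, 1),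
    (1, 0, -14, 1), (9, 5, 7, 4), (1, 0, 7, 1), (12, 5, 7, 3), (1, 1, 0, 1), (19, 9, 21, 10),
    (7, 2, 21, 7), (-1, -1, 7, 6), (-9, -4, 7, 3), (1, 2, 0, 1), (3, 1, 14, 5), (-3, -1, 7, 2),
    (-7, -4, 14, 7), (-1, -2, 7, 13), (1, -2, 0, 1), (-7, -1, 7, 0), (7, 6, 7, 7), (2, 1, 7, 4),
    (-2, -1, 7, 3), (1, -1, 0, 1), (3, 2, 7, 5), (4, 1, 7, 2), (-1, 1, -7, 6), (7, 3, 14, 7)]

/-- Vectors with the same value. -/
private def Ks : List (ℤ × ℤ) :=
  [(1, 0), (0, 1), (1, 1), (2, 1), (1, 2), (3, 2), (1, 3), (2, 3), (3, 4), (4, 3), (1, 7),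
    (1, 5), (2, 7), (1, 4), (5, 4), (3, 7), (2, 5), (4, 5), (5, 3), (1, 6), (4, 7), (5, 7),
    (6, 7), (7, 8), (5, 12), (2, 13), (1, 14), (15, 7), (3, 19), (7, 3), (8, 9), (9, 4), (9, 10),
    (11, 5), (5, 2), (16, 7), (1, 16)]

/-- The points of the projective line. -/
private def Pt : List (ZMod 5 × ZMod 5) :=
  [(1, 0), (0, 1), (1, 1), (2, 1), (3, 1), (4, 1)]

private instance : Fact (Nat.Prime 5) := ⟨by norm_num⟩

set_option maxRecDepth 100000 in
private lemma clsA : ∀ p q r s : ZMod 5, p * s - q * r = 1 → ∃ t ∈ LA,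
    q * (t.1 : ZMod 5) - p * (t.2.1 : ZMod 5) = 0 ∧
      r * (t.2.2.2 : ZMod 5) - s * (t.2.2.1 : ZMod 5) = 0 :=
  cls_of Pt LA (by decide) (by decide) (by decide)

set_option maxRecDepth 100000 in
private lemma clsB : ∀ p q r s : ZMod 5, p * s - q * r = 1 → ∃ t ∈ LB,
    q * (t.1 : ZMod 5) - p * (t.2.1 : ZMod 5) = 0 ∧
      r * (t.2.2.2 : ZMod 5) - s * (t.2.2.1 : ZMod 5) = 0 :=
  cls_of Pt LB (by decide) (by decide) (by decide)

set_option maxRecDepth 100000 in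
private lemma chkA : ∀ t ∈ LA, okA Ks t := by decide

set_option maxRecDepth 100000 in
private lemma chkB : ∀ t ∈ LB, okB Ks t := by decide

private lemma dvdp {n : ℤ} : (5 : ℤ) ∣ n ↔ (n : ZMod 5) = 0 :=
  (ZMod.intCast_zmod_eq_zero_iff_dvd n 5).symm

private theorem main175 (hfar : StFar) {F : ℤ → ℤ → ℂ} (h : Inv 5 5 7 F) {κ : ℂ}
    (h1_0 : F 1 0 = κ) (h0_1 : F 0 1 = κ) (h1_1 : F 1 1 = κ) (h2_1 : F 2 1 = κ)
    (h1_2 : F 1 2 = κ) (h3_2 : F 3 2 = κ) (h1_3 : F 1 3 = κ) :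
    EqC F 0 := by
  have h2_3 : F 2 3 = κ := by
    have e := g1 h 49 (-2) 7 (-7) (-1) 1 (-2) 3 1 2 3 2 1 1 7 (-7)
      (Or.inr (by decide)) (by decide)
    linear_combination (-1) * e + (1) * h3_2
  have h3_4 : F 3 4 = κ := by
    have e := g1 h 49 (-2) 7 (-7) (-2) 3 (-3) 4 2 3 1 1 2 1 (-7) 7
      (Or.inr (by decide)) (by decide)
    linear_combination (-1) * e + (1) * h1_1 + (-1) * h2_1 + (1) * h2_3
  have h4_3 : F 4 3 = κ := by
    have e := g1 h 49 (-2) 7 (-7) (-2) 3 (-1) 2 2 1 1 1 4 3 (-7) (-7)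
      (Or.inr (by decide)) (by decide)
    linear_combination (-1) * e + (1) * h1_1 + (1) * h2_3 + (-1) * h1_2
  have h1_7 : F 1 7 = κ := by
    have e := g1 h 1 0 0 1 0 1 (-1) 1 0 1 1 0 1 7 (-1) (-1)
      (Or.inl (by decide)) (by decide)
    linear_combination (-1) * e + (1) * h1_0 + (1) * h0_1 + (-1) * h1_1
  have h1_5 : F 1 5 = κ := by
    have e := g0 h 49 (-2) 7 (-7) 1 5 1 7 1 1 1 0 3 2 (-1) (-7)
      (Or.inr (by decide)) (by decide)
    linear_combination (-1) * e + (1) * h1_0 + (-1) * h3_2 + (1) * h1_7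
  have h2_7 : F 2 7 = κ := by
    have e := g1 h 1 0 0 1 0 1 (-1) 2 0 1 1 0 2 7 (-1) (-1)
      (Or.inl (by decide)) (by decide)
    linear_combination (-1) * e + (1) * h1_0 + (1) * h0_1 + (-1) * h1_2
  have h1_4 : F 1 4 = κ := by
    have e := g1 h 28 (-3) 21 (-56) (-1) 4 (-2) 7 1 2 1 4 2 7 (-7) 7
      (Or.inr (by decide)) (by decide)
    linear_combination (1/2 : ℂ) * e + (1) * h2_7
  have h5_4 : F 5 4 = κ := by
    have e := g1 h 42 (-5) (-7) 21 (-1) 4 (-1) 5 1 1 1 1 5 4 (-7) 7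
      (Or.inr (by decide)) (by decide)
    linear_combination (-1) * e + (1) * h1_1 + (1) * h1_4 + (-1) * h1_5
  have h3_7 : F 3 7 = κ := by
    have e := g1 h 1 0 0 1 0 1 (-1) 3 0 1 1 0 3 7 (-1) (-1)
      (Or.inl (by decide)) (by decide)
    linear_combination (-1) * e + (1) * h1_0 + (1) * h0_1 + (-1) * h1_3
  have h2_5 : F 2 5 = κ := by
    have e := g0 h 63 (-5) (-7) 14 2 5 3 7 2 3 1 0 2 1 1 (-7)
      (Or.inr (by decide)) (by decide)
    linear_combination (-1) * e + (1) * h1_0 + (-1) * h2_1 + (1) * h3_7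
  have h4_5 : F 4 5 = κ := by
    have e := g0 h 13 (-2) (-7) 27 3 4 4 5 3 4 1 3 2 5 1 (-1)
      (Or.inl (by decide)) (by decide)
    linear_combination e + (-1) * h1_3 + (1) * h2_5 + (1) * h3_4
  have h5_3 : F 5 3 = κ := by
    have e := g1 h 49 (-2) 7 (-7) (-2) 3 (-4) 5 2 4 1 1 5 3 (-7) 7
      (Or.inr (by decide)) (by decide)
    linear_combination (-1) * e + (1) * h1_1 + (1) * h2_3 + (-1) * h4_5
  have h1_6 : F 1 6 = κ := by
    have e := g0 h 6 (-1) 7 (-29) 1 1 4 5 1 4 1 6 1 5 1 (-1)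
      (Or.inl (by decide)) (by decide)
    linear_combination e + (1) * h1_5 + (1) * h1_1 + (-1) * h4_5
  have h4_7 : F 4 7 = κ := by
    have e := g1 h 1 0 0 1 0 1 (-1) 4 0 1 1 0 4 7 (-1) (-1)
      (Or.inl (by decide)) (by decide)
    linear_combination (-1) * e + (1) * h1_0 + (1) * h0_1 + (-1) * h1_4
  have h5_7 : F 5 7 = κ := by
    have e := g1 h 1 0 0 1 0 1 (-1) 5 0 1 1 0 5 7 (-1) (-1)
      (Or.inl (by decide)) (by decide)
    linear_combination (-1) * e + (1) * h1_0 + (1) * h0_1 + (-1) * h1_5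
  have h6_7 : F 6 7 = κ := by
    have e := g1 h 1 0 0 1 0 1 (-1) 6 0 1 1 0 6 7 (-1) (-1)
      (Or.inl (by decide)) (by decide)
    linear_combination (-1) * e + (1) * h1_0 + (1) * h0_1 + (-1) * h1_6
  have h7_8 : F 7 8 = κ := by
    have e := g0 h 98 (-17) 21 (-91) 6 7 7 8 6 7 1 1 6 7 (-7) 1
      (Or.inr (by decide)) (by decide)
    linear_combination e + (-1) * h1_1 + (2) * h6_7
  have h5_12 : F 5 12 = κ := by
    have e := g1 h 73 (-5) (-7) 12 (-3) 7 (-5) 12 3 5 2 1 1 0 (-7) (-1)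
      (Or.inl (by decide)) (by decide)
    linear_combination (-1) * e + (1) * h2_1 + (-1) * h1_0 + (1) * h3_7
  have h2_13 : F 2 13 = κ := by
    have e := g0 h 6 (-1) 7 (-29) 1 1 7 8 1 7 1 6 2 13 1 1
      (Or.inl (by decide)) (by decide)
    linear_combination (-1) * e + (1) * h1_6 + (-1) * h1_1 + (1) * h7_8
  have h1_14 : F 1 14 = κ := by
    have e := g1 h 1 0 0 1 0 1 (-2) 1 0 2 1 0 1 14 (-1) (-1)
      (Or.inl (by decide)) (by decide)
    linear_combination (-1) * e + (1) * h1_0 + (1) * h0_1 + (-1) * h2_1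
  have h15_7 : F 15 7 = κ := by
    have e := g0 h 63 (-5) (-7) 14 2 5 5 12 2 5 1 0 15 7 1 (-1)
      (Or.inr (by decide)) (by decide)
    linear_combination (-1) * e + (1) * h1_0 + (-1) * h2_5 + (1) * h5_12
  have h3_19 : F 3 19 = κ := by
    have e := g1 h 21 (-4) 28 (-133) (-2) 13 (-3) 19 2 3 1 6 3 19 7 7
      (Or.inr (by decide)) (by decide)
    linear_combination (-1/2 : ℂ) * e + (1/2) * h1_6 + (1/2) * h2_13
  have h7_3 : F 7 3 = κ := by
    have e := g0 h 11 (-5) 14 (-159) 2 1 7 3 2 7 3 19 2 13 (-1) 1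
      (Or.inl (by decide)) (by decide)
    linear_combination e + (-1) * h3_19 + (1) * h2_13 + (1) * h2_1
  have h8_9 : F 8 9 = κ := by
    have e := g0 h 6 (-1) 7 (-29) 1 1 8 9 1 8 1 6 3 19 1 1
      (Or.inl (by decide)) (by decide)
    linear_combination e + (-1) * h1_6 + (1) * h3_19 + (1) * h1_1
  have h9_4 : F 9 4 = κ := by
    have e := g0 h 31 (-14) 7 (-79) 2 1 9 4 2 9 8 9 1 1 (-1) (-1)
      (Or.inl (by decide)) (by decide)
    linear_combination e + (-1) * h8_9 + (1) * h1_1 + (1) * h2_1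
  have h9_10 : F 9 10 = κ := by
    have e := g0 h 161 (-29) 14 (-63) 6 7 9 10 6 9 7 3 1 0 (-7) (-1)
      (Or.inr (by decide)) (by decide)
    linear_combination e + (-1) * h7_3 + (1) * h1_0 + (1) * h6_7
  have h11_5 : F 11 5 = κ := by
    have e := g0 h 31 (-14) 7 (-79) 9 4 11 5 9 11 1 1 9 10 (-1) (-1)
      (Or.inl (by decide)) (by decide)
    linear_combination e + (-1) * h1_1 + (1) * h9_10 + (1) * h9_4
  have h5_2 : F 5 2 = κ := by
    have e := g0 h 84 (-37) 7 (-77) 11 5 15 7 11 15 1 0 5 2 (-1) (-7)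
      (Or.inr (by decide)) (by decide)
    linear_combination (-1) * e + (1) * h1_0 + (-1) * h11_5 + (1) * h15_7
  have h16_7 : F 16 7 = κ := by
    have e := g0 h 31 (-14) 7 (-79) 9 4 16 7 9 16 1 1 6 7 (-1) 1
      (Or.inl (by decide)) (by decide)
    linear_combination e + (-1) * h1_1 + (1) * h6_7 + (1) * h9_4
  have h1_16 : F 1 16 = κ := by
    have e := g1 h 1 0 0 1 0 1 (-1) 16 0 1 1 0 16 7 (-1) (-1)
      (Or.inl (by decide)) (by decide)
    linear_combination (-1) * e + (1) * h1_0 + (-1) * h16_7 + (1) * h0_1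
  have hK : ∀ c ∈ Ks, F c.1 c.2 = κ := by
    intro c hc
    simp only [Ks, List.mem_cons, List.not_mem_nil, or_false] at hc
    rcases hc with rfl | rfl | rfl | rfl | rfl | rfl | rfl | rfl | rfl | rfl | rfl | rfl | rfl |
      rfl | rfl | rfl | rfl | rfl | rfl | rfl | rfl | rfl | rfl | rfl | rfl | rfl | rfl | rfl |
      rfl | rfl | rfl | rfl | rfl | rfl | rfl | rfl | rfl
    · exact h1_0
    · exact h0_1
    · exact h1_1
    · exact h2_1
    · exact h1_2
    · exact h3_2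
    · exact h1_3
    · exact h2_3
    · exact h3_4
    · exact h4_3
    · exact h1_7
    · exact h1_5
    · exact h2_7
    · exact h1_4
    · exact h5_4
    · exact h3_7
    · exact h2_5
    · exact h4_5
    · exact h5_3
    · exact h1_6
    · exact h4_7
    · exact h5_7
    · exact h6_7
    · exact h7_8
    · exact h5_12
    · exact h2_13
    · exact h1_14
    · exact h15_7
    · exact h3_19
    · exact h7_3
    · exact h8_9
    · exact h9_4
    · exact h9_10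
    · exact h11_5
    · exact h5_2
    · exact h16_7
    · exact h1_16
  refine fin7' hfar h κ Ks hK LA LB chkA chkB (fun p q r s hd => ?_) (fun p q r s hd => ?_)
  · have hc : (p : ZMod 5) * s - q * r = 1 := by
      have h' := congrArg (Int.cast : ℤ → ZMod 5) hd
      push_cast at h'
      exact h'
    obtain ⟨t, htL, c1, c2⟩ := clsA _ _ _ _ hc
    exact ⟨t, htL, dvdp.2 (by push_cast; exact c1), dvdp.2 (by push_cast; exact c2)⟩
  · have hc : (p : ZMod 5) * s - q * r = 1 := by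
      have h' := congrArg (Int.cast : ℤ → ZMod 5) hd
      push_cast at h'
      exact h'
    obtain ⟨t, htL, c1, c2⟩ := clsB _ _ _ _ hc
    exact ⟨t, htL, dvdp.2 (by push_cast; exact c1), dvdp.2 (by push_cast; exact c2)⟩

/-- The coordinates at level `175`. -/
def a5 : (ℤ → ℤ → ℂ) →ₗ[ℂ] (Fin 6 → ℂ) where
  toFun K := ![K 0 1 - K 1 0, K 1 5 - K 1 0, K 2 5 - K 1 0, K 1 10 - K 1 0, K 3 10 - K 1 0, K 1 15 - K 1 0]
  map_add' K L := by
    funext i
    fin_cases i <;> simp <;> ring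
  map_smul' s K := by
    funext i
    fin_cases i <;> simp <;> ring

/-- Level `175`. -/
theorem bsG5 (hfar : StFar) : BsG 5 6 a5 := by
  intro K hS hW hst ha
  have f0 : K 0 1 - K 1 0 = 0 := congrFun ha 0
  have f1 : K 1 5 - K 1 0 = 0 := congrFun ha 1
  have f2 : K 2 5 - K 1 0 = 0 := congrFun ha 2
  have f3 : K 1 10 - K 1 0 = 0 := congrFun ha 3
  have f4 : K 3 10 - K 1 0 = 0 := congrFun ha 4
  have f5 : K 1 15 - K 1 0 = 0 := congrFun ha 5
  have hI := inv_sq (by norm_num) hS hW hst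
  norm_num at hI
  have hH := hS.1
  have hc := main175 hfar hI (κ := K 1 0) (by norm_num) (by
      have := hH 5 0 1 (by norm_num) (by norm_num)
      norm_num at this ⊢
      rw [this]; exact sub_eq_zero.1 f0)
    (by norm_num; exact sub_eq_zero.1 f1)
    (by norm_num; exact sub_eq_zero.1 f2)
    (by norm_num; exact sub_eq_zero.1 f3)
    (by norm_num; exact sub_eq_zero.1 f4)
    (by norm_num; exact sub_eq_zero.1 f5)
  obtain ⟨c, hc⟩ := hc
  refine ⟨c, fun p q hpq => ?_⟩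
  have e1 := hc (5 * p) q (by omega)
  have e2 := hH 5 p q (by norm_num) hpq
  simp only at e1
  rw [← e2, e1]
  simp

end Pool.Agent.Helper85.T7C
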