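import Pool.Agent.Helper85.T7C.Base2

/-!
# Levels `7·5^n`, `W_7 = +1`: the levels `7` and `35`
-/

set_option autoImplicit false

namespace Pool.Agent.Helper85.T7C

open Pool.Agent.Helper14.CV (Homog EqC act Tl StFar StFex)
open Pool.Agent.Helper28.WK (Tw evw)
open Pool.Agent.Helper28.TH (OkH)
open Pool.Agent.Helper28.T7
open Pool.Agent.Helper83.T7C

/-- The values from the empty word and from the words `[2]`, `[3]`. -/
private theorem vals {F : ℤ → ℤ → ℂ} (h : Inv 1 5 35 F)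
    (hev : ∀ ls : List ℕ, OkH 7 5 ls → evw 1 ls F = 0) :
    F 0 1 = F 1 0 ∧ F 1 2 = F 1 0 ∧ F 1 3 = F 1 0 := by
  have h01 : F 1 0 - F 0 1 = 0 := hev [] (by intro l hl; simp at hl)
  refine ⟨(sub_eq_zero.1 h01).symm, ?_, ?_⟩
  · have e := hev [2] (by
      intro l hl
      rw [List.mem_singleton] at hl
      subst hl
      exact ⟨by norm_num, by norm_num, by norm_num⟩)
    simp only [evw, Tw, Tl, Finset.sum_range_succ, Finset.sum_range_zero] at e
    have s1 := h.hom 2 1 0 (by norm_num) (by norm_num)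
    have s2 := h.hom 2 0 1 (by norm_num) (by norm_num)
    norm_num at e s1 s2
    rw [s1, s2] at e
    linear_combination -e + (2 : ℂ) * h01
  · have e := hev [3] (by
      intro l hl
      rw [List.mem_singleton] at hl
      subst hl
      exact ⟨by norm_num, by norm_num, by norm_num⟩)
    simp only [evw, Tw, Tl, Finset.sum_range_succ, Finset.sum_range_zero] at e
    have s1 := h.hom 3 1 0 (by norm_num) (by norm_num)
    have s2 := h.hom 3 0 1 (by norm_num) (by norm_num)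
    have t := g0 h 1 (-1) 0 1 1 0 1 3 1 1 1 0 2 3 1 1 (Or.inl (by decide)) (by decide)
    norm_num at e s1 s2
    rw [s1, s2] at e
    linear_combination (-1/2 : ℂ) * e + (1/2 : ℂ) * t + (1 : ℂ) * h01

/-- Level `7`. -/
theorem hCore0 (hfar : StFar) (p : ℕ) : CoreV p 0 := by
  intro G hS hW hst hev
  have h : Inv 1 1 7 G := by simpa using inv_of hS hW hst
  have h01 : G 1 0 - G 0 1 = 0 := hev [] (by intro l hl; simp at hl)
  have k1 : G 0 1 = G 1 0 := (sub_eq_zero.1 h01).symm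
  have k2 : G 1 2 = G 1 0 := by
    have a1 := g0 h 2 (-1) 7 (-3) 1 2 0 1 1 0 0 1 1 3 1 (-1) (Or.inl (by decide)) (by decide)
    have a2 := g0 h 2 (-1) 7 (-3) 1 3 0 1 1 0 1 2 1 3 (-1) (-1) (Or.inl (by decide)) (by decide)
    linear_combination (1/3 : ℂ) * a2 - (2/3 : ℂ) * a1 + k1
  refine fin7 hfar h (G 1 0) (fun p q r s hd hr => ?_) (fun p q r s hd hr => ?_)
  · exact ⟨1, 0, 0, 1, Or.inl (by decide), one_dvd _, one_dvd _, rfl, k1⟩
  · exact ⟨1, 0, 0, 1, Or.inl (by decide), one_dvd _, one_dvd _, k1,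
      cl h _ 1 2 k2 1 _ _ (by decide)⟩

/-- Representatives. -/
private def LA : List (ℤ × ℤ × ℤ × ℤ) :=
  [(1, 0, 0, 1), (0, -1, 7, 0), (-2, 1, -7, 3), (2, 1, 7, 4), (2, -1, -7, 4), (-2, -1, 7, 3)]

/-- Representatives. -/
private def LB : List (ℤ × ℤ × ℤ × ℤ) :=
  [(1, 0, 0, 1), (0, -1, 7, 0), (-3, -1, 7, 2), (2, 1, 7, 4), (1, 0, 7, 1), (-2, -1, 7, 3)]

/-- Vectors with the same value. -/
private def Ks : List (ℤ × ℤ) :=
  [(1, 0), (0, 1), (1, 2), (1, 3), (2, 3), (1, 8), (3, 4), (1, 4), (2, 7), (3, 5), (1, 5)]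

private lemma clsA : ∀ r s : ZMod 5, (r ≠ 0 ∨ s ≠ 0) → ∃ t ∈ LA,
    r * (t.2.2.2 : ZMod 5) - s * (t.2.2.1 : ZMod 5) = 0 := by decide

private lemma clsB : ∀ r s : ZMod 5, (r ≠ 0 ∨ s ≠ 0) → ∃ t ∈ LB,
    r * (t.2.2.2 : ZMod 5) - s * (t.2.2.1 : ZMod 5) = 0 := by decide

set_option maxRecDepth 100000 in
private lemma chkA : ∀ t ∈ LA, okA Ks t := by decide

set_option maxRecDepth 100000 in
private lemma chkB : ∀ t ∈ LB, okB Ks t := by decide

private lemma dvdp {n : ℤ} : (5 : ℤ) ∣ n ↔ (n : ZMod 5) = 0 :=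
  (ZMod.intCast_zmod_eq_zero_iff_dvd n 5).symm

private theorem main35 (hfar : StFar) {F : ℤ → ℤ → ℂ} (h : Inv 1 5 35 F) {κ : ℂ}
    (h1_0 : F 1 0 = κ) (h0_1 : F 0 1 = κ) (h1_2 : F 1 2 = κ) (h1_3 : F 1 3 = κ) :
    EqC F 0 := by
  have h2_3 : F 2 3 = κ := by
    have e := g0 h 1 (-1) 0 1 1 0 1 3 1 1 1 0 2 3 1 1
      (Or.inl (by decide)) (by decide)
    linear_combination (-1) * e + (1) * h1_3
  have h1_8 : F 1 8 = κ := by
    have e := g1 h 14 (-3) 7 (-7) (-1) 5 (-1) 8 1 1 1 2 1 5 35 (-7)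
      (Or.inr (by decide)) (by decide)
    linear_combination (-1) * e + (1) * h1_2
  have h3_4 : F 3 4 = κ := by
    have e := g0 h 4 (-3) 7 (-26) 2 3 3 4 2 3 1 8 0 1 (-1) 1
      (Or.inl (by decide)) (by decide)
    linear_combination e + (-1) * h1_8 + (1) * h0_1 + (1) * h2_3
  have h1_4 : F 1 4 = κ := by
    have e := g0 h 1 (-1) 0 1 1 0 1 4 1 1 1 0 3 4 1 1
      (Or.inl (by decide)) (by decide)
    linear_combination e + (1) * h3_4
  have h2_7 : F 2 7 = κ := by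
    have e := g0 h 14 (-3) 7 (-7) 1 4 2 7 1 2 2 7 1 3 1 7
      (Or.inr (by decide)) (by decide)
    linear_combination (1/2 : ℂ) * e + (1/2) * h1_3 + (1/2) * h1_4
  have h3_5 : F 3 5 = κ := by
    have e := g0 h 7 (-4) (-7) 21 2 3 3 5 2 3 2 7 1 0 (-1) 1
      (Or.inr (by decide)) (by decide)
    linear_combination e + (-1) * h2_7 + (1) * h1_0 + (1) * h2_3
  have h1_5 : F 1 5 = κ := by
    have e := g0 h 8 (-5) (-7) 22 2 3 3 5 2 3 1 4 1 5 (-1) 1
      (Or.inl (by decide)) (by decide)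
    linear_combination (-1) * e + (1) * h1_4 + (-1) * h2_3 + (1) * h3_5
  have hK : ∀ c ∈ Ks, F c.1 c.2 = κ := by
    intro c hc
    simp only [Ks, List.mem_cons, List.not_mem_nil, or_false] at hc
    rcases hc with rfl | rfl | rfl | rfl | rfl | rfl | rfl | rfl | rfl | rfl | rfl
    · exact h1_0
    · exact h0_1
    · exact h1_2
    · exact h1_3
    · exact h2_3
    · exact h1_8
    · exact h3_4
    · exact h1_4
    · exact h2_7
    · exact h3_5
    · exact h1_5
  refine fin7' hfar h κ Ks hK LA LB chkA chkB (fun p q r s hd => ?_) (fun p q r s hd => ?_)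
  · have hc : (r : ZMod 5) ≠ 0 ∨ (s : ZMod 5) ≠ 0 := by
      by_contra hcon
      push Not at hcon
      have h' := congrArg (Int.cast : ℤ → ZMod 5) hd
      push_cast at h'
      rw [hcon.1, hcon.2, mul_zero, mul_zero, sub_zero] at h'
      exact absurd h' (by decide)
    obtain ⟨t, htL, c2⟩ := clsA _ _ hc
    exact ⟨t, htL, one_dvd _, dvdp.2 (by push_cast; exact c2)⟩
  · have hc : (r : ZMod 5) ≠ 0 ∨ (s : ZMod 5) ≠ 0 := by
      by_contra hcon
      push Not at hcon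
      have h' := congrArg (Int.cast : ℤ → ZMod 5) hd
      push_cast at h'
      rw [hcon.1, hcon.2, mul_zero, mul_zero, sub_zero] at h'
      exact absurd h' (by decide)
    obtain ⟨t, htL, c2⟩ := clsB _ _ hc
    exact ⟨t, htL, one_dvd _, dvdp.2 (by push_cast; exact c2)⟩

/-- Level `35`. -/
theorem hCore51 (hfar : StFar) : CoreV 5 1 := by
  intro F hS hW hst hev
  have h := inv_of hS hW hst
  have h' : Inv 1 5 35 F := by norm_num at h; exact h
  obtain ⟨k1, k2, k3⟩ := vals h' hev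
  exact main35 hfar h' rfl k1 k2 k3

end Pool.Agent.Helper85.T7C
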